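import Mathlib
import Pool.Agent.N753.DR.Stm

/-!
# Project DR, piece DIAG: one exceptional set for countably many conditions (helper572)
-/

set_option autoImplicit false

namespace Pool.Agent.N572.DR.Diag

open Pool.Agent.N753.DR

/-- the choice of `U_j` -/
theorem exists_U (ν C D : ℝ) (hν : 0 < ν) (i : ℕ) : ∃ U₀ : ℝ, 0 ≤ U₀ ∧ ∀ U : ℝ, U₀ ≤ U →
    C * Real.exp ((D - ν) * U) ≤ (1 / 2) ^ (i + 1) * Real.exp (D * U - √U) := by
  refine ⟨4 / ν ^ 2 + 2 * |C| * 2 ^ (i + 1) / ν, by positivity, fun U hU => ?_⟩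
  have h1 : 4 / ν ^ 2 ≤ U := by
    have : 0 ≤ 2 * |C| * 2 ^ (i + 1) / ν := by positivity
    linarith
  have h2 : 2 * |C| * 2 ^ (i + 1) / ν ≤ U := by
    have : 0 ≤ 4 / ν ^ 2 := by positivity
    linarith
  have hU0 : 0 ≤ U := le_trans (by positivity) h1
  have h3 : 2 / ν ≤ √U := by
    apply Real.le_sqrt_of_sq_le
    rw [div_pow]
    norm_num
    exact h1
  have h4 : √U ≤ ν * U / 2 := by
    have h5 : 2 / ν * √U ≤ √U * √U := mul_le_mul_of_nonneg_right h3 (Real.sqrt_nonneg U)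
    rw [Real.mul_self_sqrt hU0, div_mul_eq_mul_div, div_le_iff₀ hν] at h5
    linarith
  have h5 : |C| * 2 ^ (i + 1) ≤ Real.exp (ν * U - √U) := by
    have h6 : |C| * 2 ^ (i + 1) ≤ ν * U / 2 := by
      rw [div_le_iff₀ hν] at h2
      linarith
    have h7 := Real.add_one_le_exp (ν * U - √U)
    linarith
  have h6 : |C| ≤ (1 / 2) ^ (i + 1) * Real.exp (ν * U - √U) := by
    rw [one_div, inv_pow, ← div_eq_inv_mul, le_div_iff₀ (by positivity)]
    exact h5
  have h7 : Real.exp (D * U - √U) = Real.exp (ν * U - √U) * Real.exp ((D - ν) * U) := by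
    rw [← Real.exp_add]
    congr 1
    ring
  rw [h7, ← mul_assoc]
  refine mul_le_mul_of_nonneg_right ?_ (Real.exp_pos _).le
  exact (le_abs_self C).trans h6

theorem geom_le (N : ℕ) : ∑ n ∈ Finset.range N, (1 / 2 : ℝ) ^ (n + 1) ≤ 1 - (1 / 2) ^ N := by
  induction N with
  | zero => simp
  | succ N ih =>
    rw [Finset.sum_range_succ]
    have : (1 / 2 : ℝ) ^ (N + 1) = (1 / 2) ^ N / 2 := by rw [pow_succ]; ring
    rw [this]
    linarith

/-- a sum of different powers of `1 / 2` -/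
theorem sum_le_one {J : Type} (i : J → ℕ) (hi : Function.Injective i) (S : Finset J) :
    ∑ j ∈ S, (1 / 2 : ℝ) ^ (i j + 1) ≤ 1 := by
  classical
  obtain ⟨N, hN⟩ : ∃ N, S.image i ⊆ Finset.range N := by
    refine ⟨(S.image i).sup id + 1, fun n hn => ?_⟩
    rw [Finset.mem_range]
    have := Finset.le_sup (f := id) hn
    simp only [id] at this
    omega
  have h1 : ∑ j ∈ S, (1 / 2 : ℝ) ^ (i j + 1) = ∑ n ∈ S.image i, (1 / 2 : ℝ) ^ (n + 1) := by
    rw [Finset.sum_image]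
    intro a _ b _ h
    exact hi h
  rw [h1]
  refine (Finset.sum_le_sum_of_subset_of_nonneg hN fun n _ _ => by positivity).trans ?_
  refine (geom_le N).trans ?_
  have : (0 : ℝ) ≤ (1 / 2) ^ N := by positivity
  linarith

/-- DIAG -/
theorem t : StmDiag := by
  classical
  intro Ω J _ H hmono A D hD hA
  obtain ⟨i, hi⟩ := Countable.exists_injective_nat J
  choose ν C hν hC using hA
  have hU : ∀ j, ∃ U₀ : ℝ, 0 ≤ U₀ ∧ ∀ U : ℝ, U₀ ≤ U →
      C j * Real.exp ((D - ν j) * U) ≤ (1 / 2) ^ (i j + 1) * Real.exp (D * U - √U) :=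
    fun j => exists_U (ν j) (C j) D (hν j) (i j)
  choose U₀ hU0 hUb using hU
  refine ⟨{p | ∃ j, A j p ∧ ¬ H (U₀ j) p}, ?_, ?_⟩
  · intro U hUn
    set T : J → Set Ω := fun j => {p | A j p ∧ H U p} with hT
    have hTfin : ∀ j, (T j).Finite := fun j => (hC j U hUn).1
    have hTcard : ∀ j, U₀ j ≤ U → ((T j).ncard : ℝ) ≤
        (1 / 2) ^ (i j + 1) * Real.exp (D * U - √U) := fun j hj =>
      (hC j U hUn).2.trans (hUb j U hj)
    -- the relevant indices
    set R : Set J := {j | U₀ j ≤ U ∧ (T j).Nonempty} with hR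
    have hRfin : R.Finite := by
      obtain ⟨N, hN⟩ := exists_nat_gt (Real.exp (D * U - √U))
      refine Set.Finite.of_injOn (f := i) (t := Set.Iio N) ?_ hi.injOn (Set.finite_Iio N)
      rintro j ⟨hj1, hj2⟩
      rw [Set.mem_Iio]
      by_contra hc
      rw [not_lt] at hc
      have h1 : 1 ≤ (T j).ncard := (Set.ncard_pos (hTfin j)).2 hj2
      have h2 := hTcard j hj1
      have h3 : (1 : ℝ) ≤ (T j).ncard := by exact_mod_cast h1
      have h4 : (1 : ℝ) ≤ (1 / 2) ^ (i j + 1) * Real.exp (D * U - √U) := h3.trans h2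
      rw [one_div, inv_pow, ← div_eq_inv_mul, le_div_iff₀ (by positivity), one_mul] at h4
      have h5 : (N : ℝ) ≤ (2 : ℝ) ^ (i j + 1) := by
        have h6 : i j + 1 ≤ 2 ^ (i j + 1) := (Nat.lt_two_pow_self).le
        have h7 : N ≤ 2 ^ (i j + 1) := by omega
        exact_mod_cast h7
      linarith
    have hsub : {p | p ∈ {p | ∃ j, A j p ∧ ¬ H (U₀ j) p} ∧ H U p} ⊆
        ⋃ j ∈ hRfin.toFinset, T j := by
      rintro p ⟨⟨j, hj1, hj2⟩, hp⟩
      rw [Set.mem_iUnion₂]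
      have hle : U₀ j ≤ U := by
        by_contra hc
        rw [not_le] at hc
        exact hj2 (hmono _ _ p hc.le hp)
      exact ⟨j, by rw [Set.Finite.mem_toFinset]; exact ⟨hle, p, hj1, hp⟩, hj1, hp⟩
    have hfinU : (⋃ j ∈ hRfin.toFinset, T j).Finite :=
      Set.Finite.biUnion (Finset.finite_toSet _) fun j _ => hTfin j
    refine ⟨hfinU.subset hsub, ?_⟩
    have h1 : ({p | p ∈ {p | ∃ j, A j p ∧ ¬ H (U₀ j) p} ∧ H U p}.ncard : ℝ) ≤
        ((⋃ j ∈ hRfin.toFinset, T j).ncard : ℝ) := by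
      exact_mod_cast Set.ncard_le_ncard hsub hfinU
    refine h1.trans ?_
    have h2 : (⋃ j ∈ hRfin.toFinset, T j).ncard ≤ ∑ j ∈ hRfin.toFinset, (T j).ncard := by
      have h3 : (⋃ j ∈ hRfin.toFinset, T j) =
          ((hRfin.toFinset.biUnion fun j => (hTfin j).toFinset : Finset Ω) : Set Ω) := by
        ext p
        simp
      rw [h3, Set.ncard_coe_finset]
      refine Finset.card_biUnion_le.trans (Finset.sum_le_sum fun j _ => ?_)
      rw [Set.ncard_eq_toFinset_card _ (hTfin j)]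
    have h3 : ((⋃ j ∈ hRfin.toFinset, T j).ncard : ℝ) ≤
        ∑ j ∈ hRfin.toFinset, ((T j).ncard : ℝ) := by exact_mod_cast h2
    refine h3.trans ?_
    calc ∑ j ∈ hRfin.toFinset, ((T j).ncard : ℝ)
        ≤ ∑ j ∈ hRfin.toFinset, (1 / 2) ^ (i j + 1) * Real.exp (D * U - √U) := by
          refine Finset.sum_le_sum fun j hj => hTcard j ?_
          rw [Set.Finite.mem_toFinset] at hj
          exact hj.1
      _ = (∑ j ∈ hRfin.toFinset, (1 / 2) ^ (i j + 1)) * Real.exp (D * U - √U) := by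
          rw [Finset.sum_mul]
      _ ≤ 1 * Real.exp (D * U - √U) :=
          mul_le_mul_of_nonneg_right (sum_le_one i hi _) (Real.exp_pos _).le
      _ = Real.exp (D * U - √U) := one_mul _
  · intro j
    refine ⟨U₀ j, hU0 j, fun p hp hAp => ?_⟩
    by_contra hc
    exact hp ⟨j, hAp, hc⟩

end Pool.Agent.N572.DR.Diag
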