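import Mathlib
import Pool.Agent.Helper259.HtExt

/-!
# Project DR: the height depends only on the minimal polynomial (helper572)
-/

set_option autoImplicit false

namespace Pool.Agent.N572.DR.Inv

open NumberField Module Polynomial

/-- the height of an element of an extension of `L` -/
theorem ht_ext {L M : Type} [Field L] [NumberField L] [Field M] [NumberField M] [Algebra L M]
    (x : L) : Height.logHeight₁ (algebraMap L M x) = finrank L M * Height.logHeight₁ x := by
  have h : ∀ {K : Type} [Field K] [NumberField K] (x : K),
      Height.logHeight₁ x = Height.logHeight ![x, 1] := by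
    intro K _ _ x
    rw [Height.logHeight₁_eq_log_mulHeight₁, Height.logHeight_eq_log_mulHeight,
      Height.mulHeight₁_eq_mulHeight]
  rw [h, h, ← Pool.Agent.Helper259.HtExt.logHeight_ext (L := M)]
  congr 1
  funext i
  fin_cases i
  · rfl
  · simp

/-- a generator of `M` over `K` and a number with the same minimal polynomial: there is an
embedding -/
theorem exists_hom {K M M' : Type} [Field K] [Field M] [Field M'] [Algebra K M] [Algebra K M']
    [FiniteDimensional K M] (x : M) (x' : M') (h : (minpoly K x).natDegree = finrank K M)
    (hxx : minpoly K x = minpoly K x') : ∃ φ : M →ₐ[K] M', φ x = x' := by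
  have hx : IsIntegral K x := IsIntegral.of_finite K x
  have hx' : minpoly K x ≠ 0 := minpoly.ne_zero hx
  have htop := (Field.primitive_element_iff_minpoly_natDegree_eq (F := K) x).2 h
  have hroot : aeval x' (minpoly K (IntermediateField.adjoin.powerBasis hx).gen) = 0 := by
    rw [IntermediateField.adjoin.powerBasis_gen, IntermediateField.minpoly_gen, hxx]
    exact minpoly.aeval K x'
  let φ₀ : IntermediateField.adjoin K {x} →ₐ[K] M' :=
    (IntermediateField.adjoin.powerBasis hx).lift x' hroot
  let e : M ≃ₐ[K] IntermediateField.adjoin K {x} :=
    (IntermediateField.topEquiv (F := K) (E := M)).symm.trans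
      (IntermediateField.equivOfEq htop.symm)
  refine ⟨φ₀.comp (e : M →ₐ[K] IntermediateField.adjoin K {x}), ?_⟩
  have h1 : e x = IntermediateField.AdjoinSimple.gen K x := by
    apply Subtype.ext
    rfl
  have h2 : φ₀ (IntermediateField.adjoin.powerBasis hx).gen = x' :=
    PowerBasis.lift_gen _ _ _
  rw [IntermediateField.adjoin.powerBasis_gen] at h2
  rw [AlgHom.comp_apply]
  change φ₀ (e x) = x'
  rw [h1, h2]

/-- the height of a generator depends only on its minimal polynomial -/
theorem ht_inv {K M M' : Type} [Field K] [NumberField K] [Field M] [NumberField M] [Field M']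
    [NumberField M'] [Algebra K M] [Algebra K M'] (x : M) (x' : M')
    (h : (minpoly K x).natDegree = finrank K M) (h' : (minpoly K x').natDegree = finrank K M')
    (hxx : minpoly K x = minpoly K x') : Height.logHeight₁ x = Height.logHeight₁ x' := by
  have : FiniteDimensional K M := FiniteDimensional.right ℚ K M
  have : FiniteDimensional K M' := FiniteDimensional.right ℚ K M'
  obtain ⟨φ, hφ⟩ := exists_hom x x' h hxx
  letI : Algebra M M' := φ.toRingHom.toAlgebra
  have : IsScalarTower K M M' := IsScalarTower.of_algebraMap_eq fun a => (φ.commutes a).symm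
  have h1 : finrank K M * finrank M M' = finrank K M' := finrank_mul_finrank K M M'
  have h2 : finrank K M = finrank K M' := by rw [← h, ← h', hxx]
  have h3 : 0 < finrank K M := finrank_pos
  have h4 : finrank M M' = 1 := by
    rw [← h2] at h1
    exact Nat.eq_of_mul_eq_mul_left h3 (by rw [h1, mul_one])
  have h5 := ht_ext (L := M) (M := M') x
  rw [h4, Nat.cast_one, one_mul] at h5
  rw [← h5, ← hφ]
  rfl

end Pool.Agent.N572.DR.Inv
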