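import Mathlib
import Pool.Agent.N753.DR.Stm
import Pool.Agent.N572.DR.Inv

/-!
# Project DR, piece KE: the exceptional set over `K` (helper572)
-/

set_option autoImplicit false

namespace Pool.Agent.N572.DR.KE

open NumberField IsDedekindDomain Module Polynomial Pool.Agent.N753.DR Pool.Agent.N572.DR.Inv

theorem countable_nf (K : Type) [Field K] [NumberField K] : Countable K := by
  rw [← Cardinal.mk_le_aleph0_iff]
  have h1 := Algebra.IsAlgebraic.cardinalMk_le_max ℚ K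
  simpa using h1

theorem countable_pol (K : Type) [Field K] [NumberField K] : Countable K[X] := by
  have := countable_nf K
  rw [← Cardinal.mk_le_aleph0_iff]
  refine (Polynomial.cardinalMk_le_max (R := K)).trans ?_
  exact max_le (Cardinal.mk_le_aleph0_iff.2 this) le_rfl

theorem lN_nonneg {K : Type} [Field K] [NumberField K] (v : HeightOneSpectrum (𝓞 K)) :
    0 ≤ lN v := Real.log_natCast_nonneg _

/-- KE -/
theorem t (h1 : StmDiag) (h2 : StmDeg) : StmKE := by
  intro K _ _ r hr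
  have hcount := countable_pol K
  have hmono : ∀ (U U' : ℝ) (p : K[X]), U ≤ U' → AtH r U p → AtH r U' p := by
    rintro U U' p hUU ⟨M, i1, i2, i3, x, h3, h4, h5, h6⟩
    exact ⟨M, i1, i2, i3, x, h3, h4, h5, h6.trans hUU⟩
  obtain ⟨E, hE1, hE2⟩ := h1 K[X] (Finset ℕ × K[X] × ℕ) (fun U p => AtH r U p) hmono
    (fun j p => j.2.1.Monic ∧ Irreducible j.2.1 ∧ j.2.1.natDegree ≤ 2 * r + 1 ∧
      BadF r j.1 j.2.1 (1 / ((j.2.2 : ℝ) + 1)) p) ((r : ℝ) + 1) (by positivity) (by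
    rintro ⟨S, F, i⟩
    by_cases hF : F.Monic ∧ Irreducible F ∧ F.natDegree ≤ 2 * r + 1
    · obtain ⟨ν, C, hν, hC⟩ := h2 K r hr S F hF.1 hF.2.1 hF.2.2 (1 / ((i : ℝ) + 1)) (by positivity)
      refine ⟨ν, C, hν, fun U hU => ?_⟩
      have he : {p : K[X] | (F.Monic ∧ Irreducible F ∧ F.natDegree ≤ 2 * r + 1 ∧
          BadF r S F (1 / ((i : ℝ) + 1)) p) ∧ AtH r U p} =
          {p : K[X] | BadF r S F (1 / ((i : ℝ) + 1)) p ∧ AtH r U p} := by
        ext p
        simp only [Set.mem_setOf_eq]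
        tauto
      simp only [he]
      exact hC U hU
    · refine ⟨1, 0, one_pos, fun U hU => ?_⟩
      have he : {p : K[X] | (F.Monic ∧ Irreducible F ∧ F.natDegree ≤ 2 * r + 1 ∧
          BadF r S F (1 / ((i : ℝ) + 1)) p) ∧ AtH r U p} = ∅ := by
        rw [Set.eq_empty_iff_forall_notMem]
        rintro p ⟨⟨h3, h4, h5, _⟩, _⟩
        exact hF ⟨h3, h4, h5⟩
      simp only [he]
      simp)
  refine ⟨E, hE1, ?_⟩
  intro S F hF1 hF2 hF3 κ hκ
  obtain ⟨i, hi⟩ := exists_nat_one_div_lt hκ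
  obtain ⟨U, hU0, hU⟩ := hE2 (S, F, i)
  refine ⟨F.natDegree * U, ?_⟩
  intro M _ _ _ x hM hx hxE W hW
  have hht : 0 ≤ Height.logHeight₁ x := Height.zero_le_logHeight₁ x
  have hsum : 0 ≤ ∑ w ∈ W, lN w := Finset.sum_nonneg fun w _ => lN_nonneg w
  have hdeg : (0 : ℝ) ≤ F.natDegree := by positivity
  rcases lt_or_ge (∑ w ∈ W, lN w) ((F.natDegree - 1 / ((i : ℝ) + 1)) * Height.logHeight₁ x)
    with hlt | hge
  · have hbad : BadF r S F (1 / ((i : ℝ) + 1)) (minpoly K x) :=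
      ⟨M, inferInstance, inferInstance, inferInstance, x, hM, hx, rfl, W, hW, hlt⟩
    obtain ⟨M', i1, i2, i3, x', h3, h4, h5, h6⟩ := hU (minpoly K x) hxE ⟨hF1, hF2, hF3, hbad⟩
    have h7 : Height.logHeight₁ x = Height.logHeight₁ x' :=
      ht_inv x x' (by rw [hx, hM]) (by rw [h4, h3]) h5.symm
    have h8 : Height.logHeight₁ x ≤ U := h7.trans_le h6
    have h9 : (F.natDegree : ℝ) * Height.logHeight₁ x ≤ F.natDegree * U :=
      mul_le_mul_of_nonneg_left h8 hdeg
    nlinarith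
  · have h3 : (F.natDegree - κ) * Height.logHeight₁ x ≤
        (F.natDegree - 1 / ((i : ℝ) + 1)) * Height.logHeight₁ x :=
      mul_le_mul_of_nonneg_right (by linarith) hht
    have h4 : (0 : ℝ) ≤ F.natDegree * U := mul_nonneg hdeg hU0
    linarith

end Pool.Agent.N572.DR.KE
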