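import Mathlib
import Pool.Agent.N753.DR.Stm
import Pool.Agent.N572.DR.Inv

/-!
# Project DR, piece LINK: common zeros modulo primes (helper572)
-/

set_option autoImplicit false

namespace Pool.Agent.N572.DR.Link

open NumberField IsDedekindDomain Module Polynomial Pool.Agent.N753.DR Pool.Agent.N572.DR.Inv

section val

variable {F : Type} [Field F] {Γ : Type} [LinearOrderedCommGroupWithZero Γ] (V : Valuation F Γ)

/-- the coefficients of a product of linear factors -/
theorem coeff_prod_le (s : Multiset F) : ∀ j : ℕ,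
    V ((s.map fun x => X - C x).prod.coeff j) ≤ (s.map fun x => max 1 (V x)).prod := by
  induction s using Multiset.induction with
  | empty =>
    intro j
    simp only [Multiset.map_zero, Multiset.prod_zero, coeff_one]
    split_ifs
    · rw [map_one]
    · rw [map_zero]; exact zero_le_one
  | cons x s ih =>
    intro j
    rw [Multiset.map_cons, Multiset.prod_cons, Multiset.map_cons, Multiset.prod_cons, sub_mul,
      coeff_sub, coeff_C_mul]
    refine (V.map_sub _ _).trans (max_le ?_ ?_)
    · rcases j with _ | j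
      · rw [coeff_zero_eq_eval_zero, eval_mul, eval_X, zero_mul, map_zero]
        exact zero_le
      · rw [coeff_X_mul]
        calc V ((s.map fun x => X - C x).prod.coeff j) ≤ (s.map fun x => max 1 (V x)).prod := ih j
          _ = 1 * (s.map fun x => max 1 (V x)).prod := (one_mul _).symm
          _ ≤ max 1 (V x) * (s.map fun x => max 1 (V x)).prod :=
            mul_le_mul_left (le_max_left _ _) _
    · rw [map_mul]
      exact mul_le_mul' (le_max_right _ _) (ih j)

/-- a root close to `α` -/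
theorem exists_root (s : Multiset F) (l α : F) (hα : V α ≤ 1) (j : ℕ)
    (hj : 1 ≤ V ((C l * (s.map fun x => X - C x).prod).coeff j))
    (hev : V ((C l * (s.map fun x => X - C x).prod).eval α) < 1) :
    ∃ x ∈ s, V x ≤ 1 ∧ V (α - x) < 1 := by
  by_contra hcon
  push Not at hcon
  have h1 : ∀ x ∈ s, max 1 (V x) ≤ V (α - x) := by
    intro x hx
    rcases le_or_gt (V x) 1 with h | h
    · rw [max_eq_left h]; exact hcon x hx h
    · rw [max_eq_right h.le, V.map_sub_eq_of_lt_right (hα.trans_lt h)]
  have h2 : (s.map fun x => max 1 (V x)).prod ≤ (s.map fun x => V (α - x)).prod :=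
    Multiset.prod_map_le_prod_map _ _ h1
  have h3 : V ((C l * (s.map fun x => X - C x).prod).eval α) =
      V l * (s.map fun x => V (α - x)).prod := by
    rw [eval_mul, eval_C, map_mul, eval_multiset_prod, Multiset.map_map, map_multiset_prod,
      Multiset.map_map]
    congr 2
    apply Multiset.map_congr rfl
    intro x _
    simp
  have h4 : V ((C l * (s.map fun x => X - C x).prod).coeff j) ≤
      V l * (s.map fun x => max 1 (V x)).prod := by
    rw [coeff_C_mul, map_mul]
    exact mul_le_mul' le_rfl (coeff_prod_le V s j)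
  have h5 : V l * (s.map fun x => max 1 (V x)).prod ≤ V l * (s.map fun x => V (α - x)).prod :=
    mul_le_mul' le_rfl h2
  rw [h3] at hev
  exact absurd (hj.trans (h4.trans h5)) (not_le.2 hev)

/-- values of an integral polynomial at close integral points -/
theorem eval_sub_lt (G : F[X]) (hG : ∀ i, V (G.coeff i) ≤ 1) (y z : F) (hy : V y ≤ 1)
    (hz : V z ≤ 1) : V (G.eval y - G.eval z) ≤ V (y - z) := by
  rw [eval_eq_sum_range, eval_eq_sum_range, ← Finset.sum_sub_distrib]
  refine V.map_sum_le fun i _ => ?_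
  rw [← mul_sub, ← geom_sum₂_mul, map_mul, map_mul]
  have h1 : V (∑ k ∈ Finset.range i, y ^ k * z ^ (i - 1 - k)) ≤ 1 := by
    refine V.map_sum_le fun k _ => ?_
    rw [map_mul, map_pow, map_pow]
    exact mul_le_one' (pow_le_one' hy _) (pow_le_one' hz _)
  calc V (G.coeff i) * (V (∑ k ∈ Finset.range i, y ^ k * z ^ (i - 1 - k)) * V (y - z))
      ≤ 1 * (1 * V (y - z)) := mul_le_mul' (hG i) (mul_le_mul' h1 le_rfl)
    _ = V (y - z) := by rw [one_mul, one_mul]

end val

/-- comparison of the valuations -/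
theorem val_le_one_iff {K L : Type} [Field K] [NumberField K] [Field L] [NumberField L]
    [Algebra K L] (v : HeightOneSpectrum (𝓞 K)) (w : HeightOneSpectrum (𝓞 L))
    [w.asIdeal.LiesOver v.asIdeal] (x : K) :
    (w.valuation L (algebraMap K L x) ≤ 1 ↔ v.valuation K x ≤ 1) ∧
    (w.valuation L (algebraMap K L x) < 1 ↔ v.valuation K x < 1) := by
  have h := HeightOneSpectrum.valuation_liesOver L v w x
  have he : v.asIdeal.ramificationIdx' w.asIdeal ≠ 0 :=
    Ideal.IsDedekindDomain.ramificationIdx'_ne_zero_of_liesOver w.asIdeal v.ne_bot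
  rw [← h]
  constructor
  · constructor
    · intro h1
      by_contra hc
      rw [not_le] at hc
      exact absurd h1 (not_le.2 (one_lt_pow₀ hc he))
    · intro h1
      exact pow_le_one' h1 _
  · constructor
    · intro h1
      by_contra hc
      rw [not_lt] at hc
      exact absurd h1 (not_lt.2 (one_le_pow₀ hc))
    · intro h1
      exact pow_lt_one₀ zero_le h1 he

/-- LINK -/
theorem t : StmLink := by
  classical
  intro K L _ _ _ _ _ θ a r ha hr
  set α : L := (θ : L) / a with hα
  set F : K[X] := minpoly K α with hF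
  have hfd : FiniteDimensional K L := FiniteDimensional.right ℚ K L
  have haK : (a : K) ≠ 0 := by exact_mod_cast ha
  refine ⟨(HeightOneSpectrum.Support.finite (𝓞 K) ((a : K)⁻¹)).toFinset ∪
    (Finset.range (F.natDegree + 1)).biUnion fun i =>
      (HeightOneSpectrum.Support.finite (𝓞 K) (F.coeff i)).toFinset, ?_⟩
  intro M _ _ _ x c l hM hx hl hc v hv hi w hw hev
  obtain ⟨i₀, hi₀⟩ := hi
  rw [Finset.mem_union, not_or] at hv
  obtain ⟨hv1, hv2⟩ := hv
  have hva : v.valuation K ((a : K)⁻¹) ≤ 1 := by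
    rw [Set.Finite.mem_toFinset] at hv1
    exact not_lt.1 hv1
  have hvF : ∀ i, v.valuation K (F.coeff i) ≤ 1 := by
    intro i
    by_cases hiF : i ≤ F.natDegree
    · by_contra hc
      rw [not_le] at hc
      exact hv2 (Finset.mem_biUnion.2 ⟨i, Finset.mem_range.2 (by omega), by
        rw [Set.Finite.mem_toFinset]; exact hc⟩)
    · rw [coeff_eq_zero_of_natDegree_lt (by omega), map_zero]
      exact zero_le_one
  have hfdM : FiniteDimensional K M := FiniteDimensional.right ℚ K M
  set f : K[X] := minpoly K x with hf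
  have hxi : IsIntegral K x := IsIntegral.of_finite K x
  have hfm : f.Monic := minpoly.monic hxi
  -- the splitting field
  let g : L[X] := f.map (algebraMap K L)
  let Ω := g.SplittingField
  have hfdΩ : FiniteDimensional L Ω := inferInstance
  have : NumberField Ω := NumberField.of_module_finite L Ω
  obtain ⟨Q, hQm, hQ⟩ := Ideal.exists_maximal_ideal_liesOver_of_isIntegral (S := 𝓞 Ω) w.asIdeal
  let W : HeightOneSpectrum (𝓞 Ω) :=
    ⟨Q, hQm.isPrime, Ideal.ne_bot_of_liesOver_of_ne_bot w.ne_bot Q⟩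
  have hWw : W.asIdeal.LiesOver w.asIdeal := hQ
  have hWv : W.asIdeal.LiesOver v.asIdeal := Ideal.LiesOver.trans W.asIdeal w.asIdeal v.asIdeal
  set V := W.valuation Ω with hV
  -- `α`
  set αΩ : Ω := algebraMap L Ω α with hαΩ
  have haL : algebraMap L Ω ((a : L)⁻¹) = algebraMap K Ω ((a : K)⁻¹) := by
    rw [map_inv₀, map_inv₀, map_natCast, map_natCast]
  have hVa : V (algebraMap L Ω ((a : L)⁻¹)) ≤ 1 := by
    rw [haL]
    exact (val_le_one_iff v W ((a : K)⁻¹)).1.2 hva
  have hVα : V αΩ ≤ 1 := by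
    rw [hαΩ, hα, div_eq_mul_inv, map_mul, map_mul]
    refine mul_le_one' ?_ hVa
    exact (val_le_one_iff w W (θ : L)).1.2 (w.valuation_le_one θ)
  -- the polynomial
  have hsplit : Splits (f.map (algebraMap K Ω)) := by
    have h1 := SplittingField.splits g
    have h2 : g.map (algebraMap L Ω) = f.map (algebraMap K Ω) := by
      rw [Polynomial.map_map, ← IsScalarTower.algebraMap_eq K L Ω]
    rw [← h2]
    exact h1
  have hfac := hsplit.eq_prod_roots_of_monic (hfm.map _)
  set s := (f.map (algebraMap K Ω)).roots with hs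
  have hcoef : ∀ i : Fin (r + 1), (C (algebraMap K Ω l) * (s.map fun x => X - C x).prod).coeff i =
      algebraMap K Ω (c i) := by
    intro i
    rw [← hfac, coeff_C_mul, coeff_map, ← map_mul, hc i]
  have hj : 1 ≤ V ((C (algebraMap K Ω l) * (s.map fun x => X - C x).prod).coeff i₀) := by
    rw [hcoef]
    by_contra hcon
    rw [not_le] at hcon
    have h1 := (val_le_one_iff v W (c i₀ : K)).2.1 hcon
    rw [HeightOneSpectrum.valuation_lt_one_iff_mem] at h1
    exact hi₀ h1
  have hnat : (C (algebraMap K Ω l) * (s.map fun x => X - C x).prod).natDegree < r + 1 := by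
    rw [← hfac]
    refine (natDegree_C_mul_le _ _).trans_lt ?_
    rw [natDegree_map, hx]
    omega
  have hevΩ : algebraMap L Ω (ev a θ c : L) = (a : Ω) ^ r *
      (C (algebraMap K Ω l) * (s.map fun x => X - C x).prod).eval αΩ := by
    rw [eval_eq_sum_range' hnat, ← Fin.sum_univ_eq_sum_range
      (fun i => (C (algebraMap K Ω l) * (s.map fun x => X - C x).prod).coeff i * αΩ ^ i)]
    unfold ev evS
    simp only [AddMonoidHom.coe_mk, ZeroHom.coe_mk]
    change algebraMap L Ω (algebraMap (𝓞 L) L (∑ i : Fin (r + 1),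
      algebraMap (𝓞 K) (𝓞 L) (c i) * ((a : 𝓞 L) ^ (r - (i : ℕ)) * θ ^ (i : ℕ)))) = _
    rw [map_sum, map_sum, Finset.mul_sum]
    refine Finset.sum_congr rfl fun i _ => ?_
    rw [hcoef i]
    have hθ : αΩ = algebraMap L Ω (θ : L) / (a : Ω) := by
      rw [hαΩ, hα, map_div₀, map_natCast]
    have haΩ : (a : Ω) ≠ 0 := by exact_mod_cast ha
    have h1 : algebraMap L Ω (algebraMap (𝓞 L) L (algebraMap (𝓞 K) (𝓞 L) (c i) *
        ((a : 𝓞 L) ^ (r - (i : ℕ)) * θ ^ (i : ℕ)))) =
        algebraMap K Ω (c i) * ((a : Ω) ^ (r - (i : ℕ)) * algebraMap L Ω (θ : L) ^ (i : ℕ)) := by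
      rw [map_mul, map_mul, map_mul, map_mul, map_pow, map_pow, map_pow, map_pow, map_natCast,
        map_natCast]
      congr 1
    refine h1.trans ?_
    rw [hθ, div_pow]
    have h3 : (a : Ω) ^ r = (a : Ω) ^ (r - (i : ℕ)) * (a : Ω) ^ (i : ℕ) := by
      rw [← pow_add]
      congr 1
      have := i.2
      omega
    rw [h3]
    have h4 : (a : Ω) ^ (i : ℕ) * (algebraMap L Ω (θ : L) ^ (i : ℕ) / (a : Ω) ^ (i : ℕ)) =
        algebraMap L Ω (θ : L) ^ (i : ℕ) := mul_div_cancel₀ _ (pow_ne_zero _ haΩ)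
    calc algebraMap K Ω (c i) * ((a : Ω) ^ (r - (i : ℕ)) * algebraMap L Ω (θ : L) ^ (i : ℕ))
        = algebraMap K Ω (c i) * ((a : Ω) ^ (r - (i : ℕ)) * ((a : Ω) ^ (i : ℕ) *
          (algebraMap L Ω (θ : L) ^ (i : ℕ) / (a : Ω) ^ (i : ℕ)))) := by rw [h4]
      _ = _ := by ring
  have hVev : V (algebraMap L Ω (ev a θ c : L)) < 1 := by
    refine (val_le_one_iff w W (ev a θ c : L)).2.2 ?_
    rw [HeightOneSpectrum.valuation_lt_one_iff_mem]
    exact hev
  have hPα : V ((C (algebraMap K Ω l) * (s.map fun x => X - C x).prod).eval αΩ) < 1 := by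
    have haΩ : (a : Ω) ≠ 0 := by exact_mod_cast ha
    have h1 : (C (algebraMap K Ω l) * (s.map fun x => X - C x).prod).eval αΩ =
        (algebraMap L Ω ((a : L)⁻¹)) ^ r * algebraMap L Ω (ev a θ c : L) := by
      rw [hevΩ, map_inv₀, map_natCast, inv_pow, inv_mul_cancel_left₀ (pow_ne_zero r haΩ)]
    rw [h1, map_mul, map_pow]
    calc V (algebraMap L Ω ((a : L)⁻¹)) ^ r * V (algebraMap L Ω (ev a θ c : L))
        ≤ 1 * V (algebraMap L Ω (ev a θ c : L)) := mul_le_mul' (pow_le_one' hVa r) le_rfl
      _ < 1 := by rw [one_mul]; exact hVev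
  obtain ⟨y, hys, hy1, hy2⟩ := exists_root V s _ αΩ hVα i₀ hj hPα
  -- `y` is a conjugate of `x`
  have hyroot : aeval y f = 0 := by
    rw [hs, mem_roots (hfm.map _).ne_zero, IsRoot.def, eval_map_algebraMap] at hys
    exact hys
  have hmin : minpoly K x = minpoly K y :=
    minpoly.eq_of_irreducible_of_monic (minpoly.irreducible hxi) hyroot hfm
  obtain ⟨φ, hφ⟩ := exists_hom x y (by rw [hx, hM]) hmin
  let _ : Algebra M Ω := φ.toRingHom.toAlgebra
  have hst : IsScalarTower K M Ω := IsScalarTower.of_algebraMap_eq fun b => (φ.commutes b).symm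
  have hmap : ∀ b : M, algebraMap M Ω b = φ b := fun b => rfl
  have hfdMΩ : FiniteDimensional M Ω := FiniteDimensional.right K M Ω
  let u : HeightOneSpectrum (𝓞 M) := HeightOneSpectrum.under (𝓞 M) W
  have hWu : W.asIdeal.LiesOver u.asIdeal := ⟨rfl⟩
  have huv : u.asIdeal.LiesOver v.asIdeal :=
    Ideal.LiesOver.tower_bot W.asIdeal u.asIdeal v.asIdeal
  refine ⟨u, huv, ?_, ?_⟩
  · have h1 := (val_le_one_iff u W x).1.1
    rw [hmap, hφ] at h1
    exact h1 hy1
  · have h1 := (val_le_one_iff u W (aeval x F)).2.1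
    apply h1
    rw [hmap, ← aeval_algHom_apply, hφ]
    have h2 : aeval y F = (F.map (algebraMap K Ω)).eval y - (F.map (algebraMap K Ω)).eval αΩ := by
      rw [eval_map_algebraMap, eval_map_algebraMap, hαΩ, aeval_algebraMap_apply, hF,
        minpoly.aeval, map_zero, sub_zero]
    rw [h2]
    refine (eval_sub_lt V _ ?_ y αΩ hy1 hVα).trans_lt ?_
    · intro i
      rw [coeff_map]
      exact (val_le_one_iff v W (F.coeff i)).1.2 (hvF i)
    · rw [Valuation.map_sub_swap]
      exact hy2

end Pool.Agent.N572.DR.Link
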